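import Pool.Agent.Helper35.HC.StE

/-!
Project HC (MP_925021_gt), module SEA: lifts of all great circles from one point
-/

set_option autoImplicit false

namespace Pool.Agent.Helper90.HC

open Helper35.HC Helper35.PI Helper35.PI2 Helper32.CL Helper35.MS Helper35.HSF
open scoped ContDiff Manifold Topology ENNReal BigOperators unitInterval
open MeasureTheory Set Filter

/-- unit vectors orthogonal to a unit vector -/
lemma conn_orth (n : ℕ) (hn : 2 ≤ n) (p : EE (n + 1)) (hp : ‖p‖ = 1) :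
    IsConnected {ξ : EE (n + 1) | ‖ξ‖ = 1 ∧ (inner ℝ ξ p : ℝ) = 0} := by
  have hp0 : p ≠ 0 := by
    intro h
    rw [h, norm_zero] at hp
    exact zero_ne_one hp
  have hfr : Module.finrank ℝ ((ℝ ∙ p)ᗮ : Submodule ℝ (EE (n + 1))) = n := by
    have : Fact (Module.finrank ℝ (EE (n + 1)) = n + 1) := ⟨by simp [EE]⟩
    exact Submodule.finrank_orthogonal_span_singleton hp0
  have hrk : 1 < Module.rank ℝ ((ℝ ∙ p)ᗮ : Submodule ℝ (EE (n + 1))) := by
    rw [← Module.finrank_eq_rank, hfr]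
    exact_mod_cast hn
  have hc := isConnected_sphere hrk (0 : ((ℝ ∙ p)ᗮ : Submodule ℝ (EE (n + 1)))) zero_le_one
  have h2 := hc.image (fun x : ((ℝ ∙ p)ᗮ : Submodule ℝ (EE (n + 1))) => (x : EE (n + 1)))
    continuous_subtype_val.continuousOn
  convert h2 using 1
  ext ξ
  constructor
  · rintro ⟨h3, h4⟩
    refine ⟨⟨ξ, ?_⟩, ?_, rfl⟩
    · rw [Submodule.mem_orthogonal_singleton_iff_inner_left]
      exact h4
    · rw [mem_sphere_zero_iff_norm]
      exact h3
  · rintro ⟨x, hx, rfl⟩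
    rw [mem_sphere_zero_iff_norm] at hx
    refine ⟨hx, ?_⟩
    have := x.2
    rw [Submodule.mem_orthogonal_singleton_iff_inner_left] at this
    exact this

lemma unit_comb {n : ℕ} {p ξ : EE (n + 1)} (hp : ‖p‖ = 1) (hξ : ‖ξ‖ = 1)
    (h : (inner ℝ ξ p : ℝ) = 0) (s : ℝ) : ‖Real.cos s • p + Real.sin s • ξ‖ = 1 := by
  have h1 : ‖Real.cos s • p + Real.sin s • ξ‖ ^ 2 = 1 := by
    rw [norm_add_sq_real, norm_smul, norm_smul, hp, hξ, mul_one, mul_one, Real.norm_eq_abs,
      Real.norm_eq_abs, sq_abs, sq_abs, real_inner_smul_left, real_inner_smul_right,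
      real_inner_comm, h]
    have := Real.cos_sq_add_sin_sq s
    linarith
  nlinarith [norm_nonneg (Real.cos s • p + Real.sin s • ξ)]

theorem hSEA : StSEA := by
  intro n hn M _ _ K π q₀ hq₀ hloc hlift
  set p₀ : EE (n + 1) := (π q₀ : EE (n + 1)) with hp₀
  have hp1 : ‖p₀‖ = 1 := by
    have := (π q₀).2
    rwa [mem_sphere_zero_iff_norm] at this
  set T : Set (EE (n + 1)) := {ξ : EE (n + 1) | ‖ξ‖ = 1 ∧ (inner ℝ ξ p₀ : ℝ) = 0} with hT
  have hconn : IsConnected T := conn_orth n hn p₀ hp1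
  have : PreconnectedSpace T := isPreconnected_iff_preconnectedSpace.mp hconn.isPreconnected
  obtain ⟨ξ₀, hξ₀⟩ := hconn.nonempty
  -- the union of the sources
  set U : Set M := {x | ∃ e : OpenPartialHomeomorph M (Metric.sphere (0 : EE (n + 1)) 1),
    x ∈ e.source ∧ EqOn π e e.source} with hU
  have hUo : IsOpen U := by
    rw [isOpen_iff_mem_nhds]
    rintro x ⟨e, hx, he⟩
    exact Filter.mem_of_superset (e.open_source.mem_nhds hx) (fun y hy => ⟨e, hy, he⟩)
  have hKU : ∀ q ∈ K, q ∈ U := fun q hq => hloc q hq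
  have hlocU : IsLocalHomeomorphOn π U := IsLocalHomeomorphOn.mk π U (fun x hx => hx)
  set p : U → Metric.sphere (0 : EE (n + 1)) 1 := fun x => π x.1 with hpdef
  have hpl : IsLocalHomeomorph p := by
    rw [isLocalHomeomorph_iff_isLocalHomeomorphOn_univ]
    exact hlocU.comp (hUo.isOpenEmbedding_subtypeVal.isLocalHomeomorph.isLocalHomeomorphOn
      (s := univ)) (fun x _ => x.2)
  have hps : IsSeparatedMap p := T2Space.isSeparatedMap p
  -- choice of the lifts
  have : Nonempty M := ⟨q₀⟩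
  choose! F hF1 hF2 hF3 using fun ξ (h : ξ ∈ T) => hlift ξ h.1 h.2
  have hmem : ∀ sa : I × T, Real.pi * (sa.1 : ℝ) ∈ Icc 0 Real.pi := by
    intro sa
    constructor
    · exact mul_nonneg Real.pi_pos.le sa.1.2.1
    · exact mul_le_of_le_one_right Real.pi_pos.le sa.1.2.2
  set g' : I × T → U := fun sa => ⟨F sa.2.1 (Real.pi * (sa.1 : ℝ)),
    hKU _ (hF3 sa.2.1 sa.2.2 _ (hmem sa)).1⟩ with hg'
  set fb : C(I × T, Metric.sphere (0 : EE (n + 1)) 1) :=
    ⟨fun sa => ⟨Real.cos (Real.pi * (sa.1 : ℝ)) • p₀ + Real.sin (Real.pi * (sa.1 : ℝ)) • sa.2.1,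
      by rw [mem_sphere_zero_iff_norm]; exact unit_comb hp1 sa.2.2.1 sa.2.2.2 _⟩,
      by
        apply Continuous.subtype_mk
        fun_prop⟩ with hfb
  have hlifts : p ∘ g' = fb := by
    funext sa
    apply Subtype.ext
    exact (hF3 sa.2.1 sa.2.2 _ (hmem sa)).2
  have hcont : Continuous g' := by
    refine hpl.continuous_lift hps fb hlifts ?_ ?_
    · have : (fun a : T => g' (0, a)) = fun _ => ⟨q₀, hKU q₀ hq₀⟩ := by
        funext a
        apply Subtype.ext
        show F a.1 (Real.pi * ((0 : I) : ℝ)) = q₀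
        rw [Set.Icc.coe_zero, mul_zero]
        exact hF2 a.1 a.2
      rw [this]
      exact continuous_const
    · intro a
      apply Continuous.subtype_mk
      show Continuous (fun s : I => F a.1 (Real.pi * (s : ℝ)))
      have h1 := hF1 a.1 a.2
      refine h1.comp_continuous (by fun_prop) ?_
      intro s
      exact hmem (s, a)
  have hend : ∀ a a' : T, g' (1, a) = g' (1, a') := by
    intro a a'
    refine hps.const_of_comp hpl.isLocallyInjective (g := fun a => g' (1, a))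
      (hcont.comp (by fun_prop)) ?_ a a'
    intro b b'
    have h1 : ∀ b : T, p (g' (1, b)) = fb (1, b) := fun b => congrFun hlifts (1, b)
    rw [h1, h1]
    apply Subtype.ext
    show Real.cos (Real.pi * ((1 : I) : ℝ)) • p₀ + Real.sin (Real.pi * ((1 : I) : ℝ)) • b.1 =
      Real.cos (Real.pi * ((1 : I) : ℝ)) • p₀ + Real.sin (Real.pi * ((1 : I) : ℝ)) • b'.1
    simp
  have hendF : ∀ ξ ∈ T, F ξ Real.pi = F ξ₀ Real.pi := by
    intro ξ hξ
    have h1 := congrArg Subtype.val (hend ⟨ξ, hξ⟩ ⟨ξ₀, hξ₀⟩)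
    simp only [hg', Set.Icc.coe_one, mul_one] at h1
    exact h1
  refine ⟨fun x => F x.2 x.1, F ξ₀ Real.pi,
    (hF3 ξ₀ hξ₀ Real.pi ⟨Real.pi_pos.le, le_rfl⟩).1, ?_, ?_⟩
  · rw [continuousOn_iff_continuous_domRestrict]
    have h1 : ∀ x : (Icc 0 Real.pi ×ˢ T : Set (ℝ × EE (n + 1))), x.1.1 / Real.pi ∈ Icc (0 : ℝ) 1 := by
      intro x
      have hx := x.2.1
      exact ⟨div_nonneg hx.1 Real.pi_pos.le, (div_le_one Real.pi_pos).mpr hx.2⟩
    have h2 : (Icc 0 Real.pi ×ˢ T).domRestrict (fun x : ℝ × EE (n + 1) => F x.2 x.1) =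
        fun x : (Icc 0 Real.pi ×ˢ T : Set (ℝ × EE (n + 1))) =>
          ((g' ((⟨x.1.1 / Real.pi, h1 x⟩ : I), (⟨x.1.2, x.2.2⟩ : T)) : U) : M) := by
      funext x
      show F x.1.2 x.1.1 = F x.1.2 (Real.pi * (x.1.1 / Real.pi))
      rw [mul_div_cancel₀ _ Real.pi_ne_zero]
    rw [h2]
    refine continuous_subtype_val.comp (hcont.comp ?_)
    refine Continuous.prodMk ?_ ?_
    · apply Continuous.subtype_mk
      fun_prop
    · apply Continuous.subtype_mk
      fun_prop
  · intro ξ h1 h2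
    have hξ : ξ ∈ T := ⟨h1, h2⟩
    exact ⟨hF2 ξ hξ, hendF ξ hξ, fun s hs => hF3 ξ hξ s hs⟩

end Pool.Agent.Helper90.HC
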